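import Mathlib

set_option autoImplicit false

open Filter Topology Finset

namespace Pool.Agent.Results.MP_843e59_an.RealCase

variable {E : Type*} [NormedAddCommGroup E] [NormedSpace ℝ E]

/-- A biorthogonal sequence. -/
def Biorthogonal (x : ℕ → E) (f : ℕ → E →L[ℝ] ℝ) : Prop :=
  ∀ i j, f i (x j) = if i = j then 1 else 0

/-- An M-basis: biorthogonal, with dense span and total functionals. -/
def IsMBasis (x : ℕ → E) (f : ℕ → E →L[ℝ] ℝ) : Prop :=
  Biorthogonal x f ∧ Dense (Submodule.span ℝ (Set.range x) : Set E) ∧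
    ∀ v : E, (∀ n, f n v = 0) → v = 0

/-- A triangular matrix. -/
def Triangular (a : ℕ → ℕ → ℝ) : Prop := ∀ n m, n < m → a n m = 0

/-- A strongly series summable M-basis. -/
def IsSSS (x : ℕ → E) (f : ℕ → E →L[ℝ] ℝ) : Prop :=
  IsMBasis x f ∧ ∃ lam : ℕ → ℕ → ℝ, Triangular lam ∧
    ∀ v : E, Tendsto (fun n => ∑ i ∈ range (n + 1), (lam n i * f i v) • x i) atTop (𝓝 v)

/-- The partial sums of the expansion of a vector. -/
def partialSum (x : ℕ → E) (f : ℕ → E →L[ℝ] ℝ) (m : ℕ) (v : E) : E :=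
  ∑ i ∈ range (m + 1), f i v • x i

/-- A consistent matrix. -/
def Consistent (T : ℕ → ℕ → ℝ) : Prop :=
  (∃ C : ℝ, ∀ n, Summable (fun m => |T n m|) ∧ ∑' m, |T n m| ≤ C) ∧
  (∀ m, Tendsto (fun n => T n m) atTop (𝓝 0)) ∧
  Tendsto (fun n => ∑' m, T n m) atTop (𝓝 1)

/-- A triangular T-basis. -/
def IsTriangularTBasis (x : ℕ → E) (f : ℕ → E →L[ℝ] ℝ) : Prop :=
  Biorthogonal x f ∧ ∃ T : ℕ → ℕ → ℝ, Triangular T ∧ Consistent T ∧
    ∀ v : E, Tendsto (fun n => ∑' m, T n m • partialSum x f m v) atTop (𝓝 v)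

/-- Sorting a block of natural numbers. -/
theorem exists_sort (w : ℕ → ℝ) (a b : ℕ) : ∃ s : Equiv.Perm ℕ,
    (∀ i, ¬ (a ≤ i ∧ i < b) → s i = i) ∧ (∀ i, (a ≤ i ∧ i < b) → (a ≤ s i ∧ s i < b)) ∧
    (∀ i j, a ≤ i → i ≤ j → j < b → w (s j) ≤ w (s i)) := by
  classical
  let e : Fin (b - a) ≃ {i : ℕ // a ≤ i ∧ i < b} :=
    { toFun := fun i => ⟨a + i, by omega, by have := i.2; omega⟩
      invFun := fun i => ⟨i.1 - a, by have := i.2; omega⟩
      left_inv := fun i => by ext; simp
      right_inv := fun i => by ext; have := i.2; simp; omega }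
  let t := Tuple.sort (fun i : Fin (b - a) => - w (a + i))
  have ht : Monotone ((fun i : Fin (b - a) => - w (a + i)) ∘ t) := Tuple.monotone_sort _
  have happ : ∀ i (hi : a ≤ i ∧ i < b), (t.extendDomain e) i
      = a + (t ⟨i - a, by omega⟩ : Fin (b - a)) := by
    intro i hi
    have h1 := Equiv.Perm.extendDomain_apply_image t e ⟨i - a, by omega⟩
    have h2 : ((e ⟨i - a, by omega⟩ : {i : ℕ // a ≤ i ∧ i < b}) : ℕ) = i := by
      simp [e]; omega
    rw [h2] at h1
    rw [h1]
    rfl
  refine ⟨t.extendDomain e, ?_, ?_, ?_⟩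
  · intro i hi
    exact Equiv.Perm.extendDomain_apply_not_subtype t e hi
  · intro i hi
    rw [happ i hi]
    have := (t ⟨i - a, by omega⟩ : Fin (b - a)).2
    omega
  · intro i j hi hij hj
    rw [happ i ⟨hi, by omega⟩, happ j ⟨by omega, hj⟩]
    have := ht (show (⟨i - a, by omega⟩ : Fin (b - a)) ≤ ⟨j - a, by omega⟩ by
      rw [Fin.le_def]; simp; omega)
    simpa using this

/-- The block of an index. -/
theorem exists_block (N : ℕ → ℕ) (h0 : N 0 = 0) (hN : StrictMono N) (i : ℕ) :
    ∃ k, N k ≤ i ∧ i < N (k + 1) := by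
  have hex : ∃ k, i < N (k + 1) := ⟨i, lt_of_lt_of_le (Nat.lt_succ_self i) (hN.id_le (i + 1))⟩
  classical
  refine ⟨Nat.find hex, ?_, Nat.find_spec hex⟩
  rcases Nat.eq_zero_or_pos (Nat.find hex) with h | h
  · rw [h, h0]; exact Nat.zero_le _
  · have := Nat.find_min hex (show Nat.find hex - 1 < Nat.find hex by omega)
    rw [Nat.sub_add_cancel h] at this
    omega

theorem block_unique (N : ℕ → ℕ) (hN : StrictMono N) (i k l : ℕ) (hk : N k ≤ i ∧ i < N (k + 1))
    (hl : N l ≤ i ∧ i < N (l + 1)) : k = l := by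
  by_contra hne
  rcases lt_or_gt_of_ne hne with h | h
  · have := hN.monotone (show k + 1 ≤ l by omega)
    omega
  · have := hN.monotone (show l + 1 ≤ k by omega)
    omega

/-- Gluing the sorting permutations. -/
theorem exists_perm (N : ℕ → ℕ) (h0 : N 0 = 0) (hN : StrictMono N) (w : ℕ → ℕ → ℝ) :
    ∃ s : Equiv.Perm ℕ, (∀ k i, N k ≤ i → i < N (k + 1) → N k ≤ s i ∧ s i < N (k + 1)) ∧
      ∀ k i j, N k ≤ i → i ≤ j → j < N (k + 1) → w k (s j) ≤ w k (s i) := by
  choose p hp1 hp2 hp3 using fun k => exists_sort (w k) (N k) (N (k + 1))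
  choose K hK using exists_block N h0 hN
  have hp2' : ∀ k i, (N k ≤ i ∧ i < N (k + 1)) → (N k ≤ (p k).symm i ∧ (p k).symm i < N (k + 1)) := by
    intro k i hi
    by_contra hcon
    have := hp1 k _ hcon
    rw [Equiv.apply_symm_apply] at this
    rw [← this] at hcon
    exact hcon hi
  have e1 : ∀ i, K (p (K i) i) = K i := fun i =>
    block_unique N hN _ _ _ (hK _) (hp2 _ _ (hK i))
  have e2 : ∀ i, K ((p (K i)).symm i) = K i := fun i =>
    block_unique N hN _ _ _ (hK _) (hp2' _ _ (hK i))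
  have hKeq : ∀ k i, N k ≤ i → i < N (k + 1) → K i = k := fun k i h1 h2 =>
    block_unique N hN _ _ _ (hK i) ⟨h1, h2⟩
  refine ⟨⟨fun i => p (K i) i, fun i => (p (K i)).symm i, ?_, ?_⟩, ?_, ?_⟩
  · intro i
    simp only [e1]
    exact Equiv.symm_apply_apply _ _
  · intro i
    simp only [e2]
    exact Equiv.apply_symm_apply _ _
  · intro k i h1 h2
    have hk := hKeq k i h1 h2
    change N k ≤ p (K i) i ∧ p (K i) i < N (k + 1)
    rw [hk]
    exact hp2 k i ⟨h1, h2⟩
  · intro k i j h1 h2 h3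
    have hk := hKeq k i h1 (by omega)
    have hk' := hKeq k j (by omega) h3
    change w k (p (K j) j) ≤ w k (p (K i) i)
    rw [hk, hk']
    exact hp3 k i j h1 h2 h3

/-- Summation by parts. -/
theorem abel (b : ℕ → ℝ) (c : ℕ → E) (L : ℕ) :
    ∑ m ∈ range L, (b m - b (m + 1)) • ∑ i ∈ range (m + 1), c i
      = ∑ i ∈ range L, (b i - b L) • c i := by
  induction L with
  | zero => simp
  | succ L ih =>
    rw [Finset.sum_range_succ, ih, Finset.sum_range_succ (fun i => (b i - b (L + 1)) • c i) L,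
      Finset.sum_range_succ c L, smul_add, ← add_assoc, Finset.smul_sum, ← Finset.sum_add_distrib]
    congr 1
    apply Finset.sum_congr rfl
    intro i _
    rw [← add_smul]; congr 1; ring

theorem abel_real (b : ℕ → ℝ) (L : ℕ) :
    ∑ m ∈ range L, (b m - b (m + 1)) = b 0 - b L := by
  induction L with
  | zero => simp
  | succ L ih => rw [Finset.sum_range_succ, ih]; ring


theorem lam_tendsto (x : ℕ → E) (f : ℕ → E →L[ℝ] ℝ) (hb : Biorthogonal x f) (lam : ℕ → ℕ → ℝ)
    (hconv : ∀ v : E, Tendsto (fun n => ∑ i ∈ range (n + 1), (lam n i * f i v) • x i) atTop (𝓝 v))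
    (i : ℕ) : Tendsto (fun n => lam n i) atTop (𝓝 1) := by
  have h1 := ((f i).continuous.tendsto (x i)).comp (hconv (x i))
  rw [hb i i, if_pos rfl] at h1
  apply h1.congr'
  filter_upwards [eventually_ge_atTop i] with n hn
  rw [Function.comp_apply, map_sum]
  rw [Finset.sum_eq_single i]
  · rw [map_smul, hb i i, if_pos rfl]; simp
  · intro j _ hj
    rw [hb j i, if_neg hj]; simp
  · intro h
    exact absurd (Finset.mem_range.2 (by omega)) h

theorem lam_bound [CompleteSpace E] (x : ℕ → E) (f : ℕ → E →L[ℝ] ℝ) (hb : Biorthogonal x f)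
    (lam : ℕ → ℕ → ℝ) (htri : Triangular lam)
    (hconv : ∀ v : E, Tendsto (fun n => ∑ i ∈ range (n + 1), (lam n i * f i v) • x i) atTop (𝓝 v)) :
    ∃ M : ℝ, 0 ≤ M ∧ ∀ n i, |lam n i| ≤ M := by
  let U : ℕ → E →L[ℝ] E := fun n => ∑ i ∈ range (n + 1), lam n i • (f i).smulRight (x i)
  have hU : ∀ n v, U n v = ∑ i ∈ range (n + 1), (lam n i * f i v) • x i := by
    intro n v
    simp [U, smul_smul]
  obtain ⟨M, hM⟩ := banach_steinhaus (g := U) (by
    intro v
    have h1 := (hconv v).norm.bddAbove_range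
    obtain ⟨C, hC⟩ := h1
    exact ⟨C, fun n => by rw [hU]; exact hC ⟨n, rfl⟩⟩)
  refine ⟨M, (norm_nonneg _).trans (hM 0), ?_⟩
  intro n i
  by_cases hi : i ≤ n
  · have h1 : U n (x i) = lam n i • x i := by
      rw [hU, Finset.sum_eq_single i]
      · rw [hb i i, if_pos rfl, mul_one]
      · intro j _ hj
        rw [hb j i, if_neg hj, mul_zero, zero_smul]
      · intro h
        exact absurd (Finset.mem_range.2 (by omega)) h
    have hx : 0 < ‖x i‖ := by
      rw [norm_pos_iff]
      intro h0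
      have := hb i i
      rw [h0, map_zero, if_pos rfl] at this
      norm_num at this
    have h2 : |lam n i| * ‖x i‖ ≤ M * ‖x i‖ := by
      have := (U n).le_of_opNorm_le (hM n) (x i)
      rwa [h1, norm_smul, Real.norm_eq_abs] at this
    exact le_of_mul_le_mul_right h2 hx
  · rw [htri n i (by omega), abs_zero]
    exact (norm_nonneg _).trans (hM 0)

theorem exists_N (lam : ℕ → ℕ → ℝ) (hl : ∀ i, Tendsto (fun n => lam n i) atTop (𝓝 1)) :
    ∃ N : ℕ → ℕ, N 0 = 0 ∧ StrictMono N ∧
      ∀ k, ∑ i ∈ range (N k), |lam (N (k + 1) - 1) i - 1| ≤ 1 := by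
  have hstep : ∀ a : ℕ, ∃ n, a < n ∧ ∑ i ∈ range a, |lam (n - 1) i - 1| ≤ 1 := by
    intro a
    have h1 : Tendsto (fun n => ∑ i ∈ range a, |lam n i - 1|) atTop (𝓝 0) := by
      have : Tendsto (fun n => ∑ i ∈ range a, |lam n i - 1|) atTop
          (𝓝 (∑ i ∈ range a, |(1 : ℝ) - 1|)) :=
        tendsto_finsetSum _ fun i _ => ((hl i).sub_const 1).abs
      simpa using this
    obtain ⟨n, hn⟩ := ((h1.eventually (eventually_le_nhds one_pos)).and
      (eventually_ge_atTop a)).exists
    exact ⟨n + 1, by omega, by simpa using hn.1⟩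
  choose g hg1 hg2 using hstep
  let N : ℕ → ℕ := fun k => Nat.rec 0 (fun _ y => g y) k
  refine ⟨N, rfl, strictMono_nat_of_lt_succ fun k => hg1 _, fun k => hg2 _⟩

theorem perm_lt (N : ℕ → ℕ) (h0 : N 0 = 0) (hN : StrictMono N) (s : Equiv.Perm ℕ)
    (hs : ∀ k i, N k ≤ i → i < N (k + 1) → N k ≤ s i ∧ s i < N (k + 1)) (k i : ℕ) :
    i < N k ↔ s i < N k := by
  obtain ⟨l, hl1, hl2⟩ := exists_block N h0 hN i
  obtain ⟨h3, h4⟩ := hs l i hl1 hl2
  constructor
  · intro h
    have : l + 1 ≤ k := by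
      by_contra hc
      have := hN.monotone (show k ≤ l by omega)
      omega
    have := hN.monotone this
    omega
  · intro h
    have : l + 1 ≤ k := by
      by_contra hc
      have := hN.monotone (show k ≤ l by omega)
      omega
    have := hN.monotone this
    omega

theorem variation (w : ℕ → ℝ) (M : ℝ) (hw : ∀ i, |w i| ≤ M) (a L : ℕ) (haL : a < L)
    (h1 : ∑ i ∈ range a, |w i - 1| ≤ 1) (hanti : ∀ i j, a ≤ i → i ≤ j → j < L → w j ≤ w i)
    (hL : w L = 0) : ∑ m ∈ range L, |w m - w (m + 1)| ≤ 3 * M + 3 + M := by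
  obtain ⟨d, rfl⟩ : ∃ d, L = a + d + 1 := ⟨L - a - 1, by omega⟩
  have hA : ∑ m ∈ range a, |w m - w (m + 1)| ≤ M + 3 := by
    have e1 : ∑ m ∈ range a, |w m - w (m + 1)|
        ≤ ∑ m ∈ range a, (|w m - 1| + |w (m + 1) - 1|) := by
      apply Finset.sum_le_sum
      intro m _
      have : w m - w (m + 1) = (w m - 1) - (w (m + 1) - 1) := by ring
      rw [this]; exact abs_sub _ _
    have e2 : ∑ m ∈ range a, |w (m + 1) - 1| ≤ ∑ m ∈ range (a + 1), |w m - 1| := by
      rw [Finset.sum_range_succ']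
      exact le_add_of_nonneg_right (abs_nonneg _)
    have e3 : |w a - 1| ≤ M + 1 := by
      calc |w a - 1| ≤ |w a| + |(1 : ℝ)| := abs_sub _ _
        _ ≤ M + 1 := by rw [abs_one]; linarith [hw a]
    rw [Finset.sum_add_distrib] at e1
    rw [Finset.sum_range_succ] at e2
    linarith
  have hB : ∑ m ∈ range d, |w (a + m) - w (a + m + 1)| ≤ 2 * M := by
    have e1 : ∑ m ∈ range d, |w (a + m) - w (a + m + 1)|
        = ∑ m ∈ range d, ((fun m => w (a + m)) m - (fun m => w (a + m)) (m + 1)) := by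
      apply Finset.sum_congr rfl
      intro m hm
      rw [Finset.mem_range] at hm
      have := hanti (a + m) (a + m + 1) (by omega) (by omega) (by omega)
      rw [abs_of_nonneg (by linarith)]
      simp only [add_assoc]
    rw [e1, abel_real]
    have h2 := abs_le.1 (hw (a + 0))
    have h3 := abs_le.1 (hw (a + d))
    linarith [h2.2, h3.1]
  rw [Finset.sum_range_succ, Finset.sum_range_add, hL, sub_zero]
  have := hw (a + d)
  linarith


/-- In a real Banach space every strongly series summable M-basis has a permutation which is a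
triangular T-basis. -/
theorem perm_main [CompleteSpace E] (x : ℕ → E) (f : ℕ → E →L[ℝ] ℝ) (h : IsSSS x f) :
    ∃ s : Equiv.Perm ℕ, IsTriangularTBasis (fun n => x (s n)) (fun n => f (s n)) := by
  classical
  obtain ⟨⟨hb, -, -⟩, lam, htri, hconv⟩ := h
  obtain ⟨M, hM0, hM⟩ := lam_bound x f hb lam htri hconv
  have hlim := lam_tendsto x f hb lam hconv
  obtain ⟨N, h0, hN, hN1⟩ := exists_N lam hlim
  obtain ⟨s, hs1, hs2⟩ := exists_perm N h0 hN (fun k i => lam (N (k + 1) - 1) i)
  have hslt := perm_lt N h0 hN s hs1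
  choose K hK1 hK2 using fun n : ℕ => exists_block N h0 hN (n + 1)
  let b : ℕ → ℕ → ℝ := fun n i => if K n = 0 then 0 else lam (N (K n) - 1) (s i)
  have hb0 : ∀ n, K n = 0 → ∀ i, b n i = 0 := fun n hn i => if_pos hn
  have hb1 : ∀ n, K n ≠ 0 → ∀ i, b n i = lam (N (K n) - 1) (s i) := fun n hn i => if_neg hn
  have hbz : ∀ n i, N (K n) ≤ i → b n i = 0 := by
    intro n i hi
    by_cases hn : K n = 0
    · exact hb0 n hn i
    · rw [hb1 n hn]
      apply htri
      have h1 : ¬ (s i < N (K n)) := fun hc => by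
        have := (hslt (K n) i).2 hc
        omega
      have h2 : 0 < N (K n) := by
        have := hN (Nat.pos_of_ne_zero hn)
        omega
      omega
  have hvar : ∀ n, ∑ m ∈ range (N (K n)), |b n m - b n (m + 1)| ≤ 3 * M + 3 + M := by
    intro n
    by_cases hn : K n = 0
    · rw [hn, h0]; simp; positivity
    · obtain ⟨k, hk⟩ : ∃ k, K n = k + 1 := ⟨K n - 1, by omega⟩
      apply variation (b n) M _ (N k) (N (K n)) (by rw [hk]; exact hN (Nat.lt_succ_self k))
      · have e1 : ∑ i ∈ range (N k), |b n i - 1|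
            = ∑ i ∈ range (N k), |lam (N (k + 1) - 1) i - 1| := by
          apply Finset.sum_equiv s
          · intro i; rw [Finset.mem_range, Finset.mem_range]; exact hslt k i
          · intro i _; rw [hb1 n hn, hk]
        rw [e1]; exact hN1 k
      · intro i j hi hij hj
        rw [hb1 n hn, hb1 n hn, hk]
        rw [hk] at hj
        exact hs2 k i j hi hij hj
      · exact hbz n _ le_rfl
      · intro i
        rw [hb1 n hn]; exact hM _ _
  have hr : Tendsto (fun n => N (K n) - 1) atTop atTop := by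
    rw [tendsto_atTop]
    intro B
    filter_upwards [eventually_ge_atTop (N (B + 1))] with n hn
    have h1 : B + 1 ≤ K n := by
      by_contra hc
      have := hN.monotone (show K n + 1 ≤ B + 1 by omega)
      have := hK2 n
      omega
    have h2 := hN.monotone h1
    have h3 := hN.id_le (B + 1)
    simp only [id] at h3
    omega
  have hKpos : ∀ᶠ n in atTop, K n ≠ 0 := by
    filter_upwards [hr.eventually (eventually_ge_atTop 1)] with n hn
    intro hc
    rw [hc, h0] at hn
    omega
  have hbl : ∀ m, Tendsto (fun n => b n m) atTop (𝓝 1) := by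
    intro m
    apply ((hlim (s m)).comp hr).congr'
    filter_upwards [hKpos] with n hn
    exact (hb1 n hn m).symm
  refine ⟨s, ?_, fun n m => b n m - b n (m + 1), ?_, ⟨⟨3 * M + 3 + M, ?_⟩, ?_, ?_⟩, ?_⟩
  · intro i j
    rw [hb (s i) (s j)]
    by_cases hij : i = j
    · rw [if_pos hij, if_pos (by rw [hij])]
    · rw [if_neg hij, if_neg (fun hc => hij (s.injective hc))]
  · intro n m hnm
    have h1 := hK1 n
    simp only
    rw [hbz n m (by omega), hbz n (m + 1) (by omega), sub_zero]
  · intro n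
    have hz : ∀ m ∉ range (N (K n)), |b n m - b n (m + 1)| = 0 := by
      intro m hm
      rw [Finset.mem_range, not_lt] at hm
      rw [hbz n m hm, hbz n (m + 1) (by omega), sub_zero, abs_zero]
    refine ⟨summable_of_ne_finset_zero hz, ?_⟩
    rw [tsum_eq_sum hz]
    exact hvar n
  · intro m
    have := (hbl m).sub (hbl (m + 1))
    rwa [sub_self] at this
  · have e1 : ∀ n, ∑' m, (b n m - b n (m + 1)) = b n 0 := by
      intro n
      rw [tsum_eq_sum (s := range (N (K n)))]
      · rw [abel_real, hbz n _ le_rfl, sub_zero]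
      · intro m hm
        rw [Finset.mem_range, not_lt] at hm
        rw [hbz n m hm, hbz n (m + 1) (by omega), sub_zero]
    simp only [e1]
    exact hbl 0
  · intro v
    have e1 : ∀ n, ∑' m, (b n m - b n (m + 1)) • partialSum (fun n => x (s n)) (fun n => f (s n)) m v
        = ∑ i ∈ range (N (K n)), b n i • (f (s i) v • x (s i)) := by
      intro n
      rw [tsum_eq_sum (s := range (N (K n)))]
      · unfold partialSum
        rw [abel (b n) (fun i => f (s i) v • x (s i)) (N (K n))]
        apply Finset.sum_congr rfl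
        intro i _
        rw [hbz n _ le_rfl, sub_zero]
      · intro m hm
        rw [Finset.mem_range, not_lt] at hm
        rw [hbz n m hm, hbz n (m + 1) (by omega), sub_zero, zero_smul]
    simp only [e1]
    apply ((hconv v).comp hr).congr'
    filter_upwards [hKpos] with n hn
    have hpos : 0 < N (K n) := by
      have := hN (Nat.pos_of_ne_zero hn)
      omega
    rw [Function.comp_apply, Nat.sub_add_cancel hpos]
    symm
    apply Finset.sum_equiv s
    · intro i; rw [Finset.mem_range, Finset.mem_range]; exact hslt _ i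
    · intro i _
      rw [hb1 n hn, smul_smul]

/-- Every real Banach space with a strongly series summable M-basis has a triangular T-basis. -/
theorem result (E : Type*) [NormedAddCommGroup E] [NormedSpace ℝ E] [CompleteSpace E]
    (x : ℕ → E) (f : ℕ → E →L[ℝ] ℝ) (h : IsSSS x f) :
    ∃ s : Equiv.Perm ℕ, IsTriangularTBasis (fun n => x (s n)) (fun n => f (s n)) :=
  perm_main x f h

end Pool.Agent.Results.MP_843e59_an.RealCase
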